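import Mathlib

namespace Pool.Agent.Results.MP_06821b_nt.Full
open Finset PowerSeries

/-- the series `1 / (1 - x ^ (2 ^ i))` -/
noncomputable def g (i : ℕ) : ℤ⟦X⟧ := invOfUnit (1 - X ^ 2 ^ i) 1

/-- the coefficient of `x ^ n` in the product of all `g i ^ m`; factors with `i > n` are `1` modulo
`x ^ (n + 1)` and are left out -/
noncomputable def b (m n : ℕ) : ℤ := coeff n (∏ i ∈ range (n + 1), g i ^ m)

noncomputable def U : ℤ⟦X⟧ →ₗ[ℤ] ℤ⟦X⟧ where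
  toFun f := mk fun n => coeff (2 * n) f
  map_add' f g := by ext n; simp
  map_smul' c f := by ext n; simp only [coeff_mk, map_smul, RingHom.id_apply]

noncomputable abbrev E : ℤ⟦X⟧ →ₐ[ℤ] ℤ⟦X⟧ := expand 2 two_ne_zero

theorem cU (f : ℤ⟦X⟧) (n : ℕ) : coeff n (U f) = coeff (2 * n) f := by simp [U]

theorem U_E (f g : ℤ⟦X⟧) : U (f * E g) = U f * g := by
  ext n
  rw [cU, coeff_mul, coeff_mul]
  symm
  refine sum_of_injOn (fun x => (2 * x.1, 2 * x.2)) (fun x _ y _ h => ?_) (fun x hx => ?_)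
    (fun x hx h => ?_) (fun x _ => ?_)
  · simp only [Prod.mk.injEq] at h
    ext <;> omega
  · simp only [mem_coe, HasAntidiagonal.mem_antidiagonal] at hx ⊢; omega
  · rw [HasAntidiagonal.mem_antidiagonal] at hx
    rw [coeff_expand_of_not_dvd, mul_zero]
    rintro ⟨c, hc⟩
    exact h ⟨(n - c, c), by simp; omega, by ext <;> simp <;> omega⟩
  · rw [cU, coeff_expand_mul]

theorem U_c (c : ℤ) (f : ℤ⟦X⟧) : U (c * f) = c * U f := by
  simpa using map_zsmul U c f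

theorem U_2 (k : ℕ) (f : ℤ⟦X⟧) : U (2 ^ k * f) = 2 ^ k * U f := by
  exact_mod_cast U_c (2 ^ k) f

theorem g_mul (i : ℕ) : (1 - X ^ 2 ^ i) * g i = 1 := mul_invOfUnit _ _ (by simp)

theorem E_g (i : ℕ) : E (g i) = g (i + 1) := by
  have h := congrArg E (g_mul i)
  simp only [map_mul, map_sub, map_one, map_pow, expand_X, ← pow_mul, ← pow_succ'] at h
  linear_combination g (i + 1) * h - E (g i) * g_mul (i + 1)

noncomputable abbrev h : ℤ⟦X⟧ := g 0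

theorem h_mul : (1 - X) * h = 1 := by simpa using g_mul 0

theorem h_E : h = (1 + X) * E h := by
  have e := g_mul 1
  rw [← E_g] at e
  linear_combination (1 + X) * E h * h_mul - h * e

theorem h_sq : h ^ 2 = (2 * h - 1) * E h := by
  linear_combination h * h_E - E h * h_mul

theorem U_one : U 1 = 1 := by ext n; simp [cU, coeff_one]

theorem U_h : U h = h := by
  have : U X = 0 := by ext n; simp [cU, coeff_X]
  conv_lhs => rw [h_E, U_E, map_add, U_one, this]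
  simp

noncomputable def a (i : ℕ) : ℤ⟦X⟧ := 2 ^ ((i + 1) / 2) * h ^ i

noncomputable def A : Submodule ℤ ℤ⟦X⟧ := Submodule.span ℤ (Set.range a)

theorem a_mem (i : ℕ) : a i ∈ A := Submodule.subset_span ⟨i, rfl⟩

theorem c_mem (c : ℤ) {f : ℤ⟦X⟧} (hf : f ∈ A) : c * f ∈ A := by simpa using A.smul_mem c hf

theorem two_mem (k : ℕ) {f : ℤ⟦X⟧} (hf : f ∈ A) : 2 ^ k * f ∈ A := by
  exact_mod_cast c_mem (2 ^ k) hf

theorem A_mul {f g : ℤ⟦X⟧} (hf : f ∈ A) (hg : g ∈ A) : f * g ∈ A := by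
  refine Submodule.span_induction₂ (p := fun f g _ _ => f * g ∈ A) ?_ (by simp) (by simp)
    (fun x y z _ _ _ h1 h2 => by rw [add_mul]; exact A.add_mem h1 h2)
    (fun x y z _ _ _ h1 h2 => by rw [mul_add]; exact A.add_mem h1 h2)
    (fun r x y _ _ h1 => by rw [smul_mul_assoc]; exact A.smul_mem r h1)
    (fun r x y _ _ h1 => by rw [mul_smul_comm]; exact A.smul_mem r h1) hf hg
  rintro _ _ ⟨i, rfl⟩ ⟨j, rfl⟩
  obtain ⟨k, hk⟩ : ∃ k, (i + 1) / 2 + (j + 1) / 2 = k + (i + j + 1) / 2 :=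
    ⟨(i + 1) / 2 + (j + 1) / 2 - (i + j + 1) / 2, by omega⟩
  convert two_mem k (a_mem (i + j)) using 1
  simp only [a]
  rw [← mul_assoc (2 ^ k), ← pow_add, ← hk]
  ring

theorem one_mem : 1 ∈ A := by simpa [a] using a_mem 0
theorem z_mem : 2 * h ∈ A := by simpa [a] using a_mem 1
theorem pow_mem {f : ℤ⟦X⟧} (hf : f ∈ A) (k : ℕ) : f ^ k ∈ A := by
  induction k with
  | zero => simpa using one_mem
  | succ k ih => rw [pow_succ]; exact A_mul ih hf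

noncomputable abbrev w : ℤ⟦X⟧ := h * (h - 1)

theorem w_mem : 2 * w ∈ A := by
  convert A.sub_mem (a_mem 2) z_mem using 1
  simp only [a]; ring

theorem W (s : ℕ) : (∃ f ∈ A, U ((h - 1) * h ^ (2 * s)) = (h - 1) * h ^ s * f) ∧
    ∃ f ∈ A, U ((h - 1) * h ^ (2 * s + 1)) = 2 * (h - 1) * h ^ (s + 1) * f := by
  have r : ∀ f, U (f * h ^ 2) = 2 * h * U (f * h) - h * U f := by
    intro f
    have := U_2 1 (f * h * E h)
    rw [h_sq, show f * ((2 * h - 1) * E h) = 2 ^ 1 * (f * h * E h) - f * E h by ring, map_sub, this,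
      U_E, U_E]
    ring
  induction s with
  | zero =>
    refine ⟨⟨1, one_mem, by simp [U_h, U_one]⟩, 1, one_mem, ?_⟩
    have := r 1
    rw [show (h - 1) * h ^ (2 * 0 + 1) = 1 * h ^ 2 - h by ring, map_sub, this, one_mul, U_h, U_one]
    ring
  | succ s ih =>
    obtain ⟨⟨f, hf, e1⟩, f', hf', e2⟩ := ih
    have e3 : U ((h - 1) * h ^ (2 * (s + 1))) = (h - 1) * h ^ (s + 1) * (2 ^ 1 * (2 * h * f') - f) := by
      rw [show (h - 1) * h ^ (2 * (s + 1)) = (h - 1) * h ^ (2 * s) * h ^ 2 by ring, r, mul_assoc _ _ h,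
        ← pow_succ, e1, e2]
      ring
    have m := A.sub_mem (two_mem 1 (A_mul z_mem hf')) hf
    refine ⟨⟨_, m, e3⟩, _, A.sub_mem m hf', ?_⟩
    rw [show (h - 1) * h ^ (2 * (s + 1) + 1) = (h - 1) * h ^ (2 * s + 1) * h ^ 2 by ring, r,
      mul_assoc _ _ h, ← pow_succ, e2, show 2 * s + 1 + 1 = 2 * (s + 1) by ring, e3]
    ring

theorem UL {f : ℤ⟦X⟧} (hf : f ∈ A) : ∃ f' ∈ A, U (w * f) = 2 * w * f' := by
  induction hf using Submodule.span_induction with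
  | mem x hx =>
    obtain ⟨i, rfl⟩ := hx
    rcases Nat.even_or_odd' i with ⟨t, rfl | rfl⟩
    · obtain ⟨f, hf, e⟩ := (W t).2
      refine ⟨_, A_mul (pow_mem z_mem t) hf, ?_⟩
      rw [a, show (2 * t + 1) / 2 = t by omega,
        show w * (2 ^ t * h ^ (2 * t)) = 2 ^ t * ((h - 1) * h ^ (2 * t + 1)) by ring, U_2, e]
      ring
    · obtain ⟨f, hf, e⟩ := (W (t + 1)).1
      refine ⟨_, A_mul (pow_mem z_mem t) hf, ?_⟩
      rw [a, show (2 * t + 1 + 1) / 2 = t + 1 by omega, show w * (2 ^ (t + 1) * h ^ (2 * t + 1))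
        = 2 ^ (t + 1) * ((h - 1) * h ^ (2 * (t + 1))) by ring, U_2, e]
      ring
  | zero => exact ⟨0, A.zero_mem, by simp⟩
  | add x y _ _ h1 h2 =>
    obtain ⟨f1, m1, e1⟩ := h1
    obtain ⟨f2, m2, e2⟩ := h2
    exact ⟨_, A.add_mem m1 m2, by rw [mul_add, map_add, e1, e2, mul_add]⟩
  | smul c x _ h1 =>
    obtain ⟨f1, m1, e1⟩ := h1
    exact ⟨_, A.smul_mem c m1, by rw [mul_smul_comm, map_smul, e1, mul_smul_comm]⟩

theorem rho (m : ℕ) : ∃ f ∈ A, (2 * h - 1) ^ 2 ^ (m + 1) = 1 + 2 ^ (m + 2) * w * f := by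
  induction m with
  | zero => exact ⟨1, one_mem, by ring⟩
  | succ m ih =>
    obtain ⟨f, hf, e⟩ := ih
    refine ⟨_, A_mul hf (A.add_mem one_mem (two_mem m (A_mul w_mem hf))), ?_⟩
    rw [pow_succ 2 (m + 1), pow_mul, e]
    ring

theorem Xw {f : ℤ⟦X⟧} (hf : f ∈ A) : ∃ c : ℤ, ∃ f' ∈ A, X * w * f = (c : ℤ⟦X⟧) * (h - 1) + w * f' := by
  induction hf using Submodule.span_induction with
  | mem x hx =>
    obtain ⟨i, rfl⟩ := hx
    rcases i with _ | i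
    · exact ⟨-1, 1, one_mem, by simp only [a]; push_cast; linear_combination (1 - h) * h_mul⟩
    · obtain ⟨k, hk⟩ : ∃ k, (i + 1 + 1) / 2 = k + (i + 1) / 2 :=
        ⟨(i + 1 + 1) / 2 - (i + 1) / 2, by omega⟩
      refine ⟨0, _, A.sub_mem (a_mem (i + 1)) (two_mem k (a_mem i)), ?_⟩
      simp only [a, hk]
      push_cast
      linear_combination -w * 2 ^ (k + (i + 1) / 2) * h ^ i * h_mul
  | zero => exact ⟨0, 0, A.zero_mem, by simp⟩
  | add x y _ _ h1 h2 =>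
    obtain ⟨c1, f1, m1, e1⟩ := h1
    obtain ⟨c2, f2, m2, e2⟩ := h2
    exact ⟨c1 + c2, _, A.add_mem m1 m2, by push_cast; linear_combination e1 + e2⟩
  | smul c x _ h1 =>
    obtain ⟨c1, f1, m1, e1⟩ := h1
    exact ⟨c * c1, _, c_mem c m1, by rw [zsmul_eq_mul]; push_cast; linear_combination c * e1⟩

def Pd (d : ℕ) (p : ℤ⟦X⟧) : Prop := ∀ n, d < n → coeff n p = 0

theorem Pd.c (d : ℕ) (c : ℤ) : Pd d c := fun n hn => by
  rw [← map_intCast (C (R := ℤ)), coeff_C, if_neg (by omega)]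

theorem Pd.add {d : ℕ} {p q : ℤ⟦X⟧} (hp : Pd d p) (hq : Pd d q) : Pd d (p + q) := fun n hn => by
  rw [map_add, hp n hn, hq n hn, add_zero]

theorem Pd.mul {d : ℕ} {p : ℤ⟦X⟧} (c : ℤ) (hp : Pd d p) : Pd d (c * p) := fun n hn => by
  rw [← zsmul_eq_mul, map_zsmul, hp n hn, smul_zero]

theorem Pd.X {d : ℕ} {p : ℤ⟦X⟧} (hp : Pd d p) : Pd (d + 1) (p * X) := fun n hn => by
  obtain ⟨n, rfl⟩ : ∃ k, n = k + 1 := ⟨n - 1, by omega⟩
  rw [coeff_succ_mul_X, hp n (by omega)]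

theorem Pd.zero {p : ℤ⟦X⟧} (hp : Pd 0 p) : ∃ c : ℤ, p = c := by
  refine ⟨coeff 0 p, ?_⟩
  ext n
  rw [← map_intCast (C (R := ℤ)), coeff_C]
  split_ifs with h
  · simp [h]
  · exact hp n (by omega)

theorem G {f : ℤ⟦X⟧} (hf : f ∈ A) (d : ℕ) : ∀ p, Pd d p →
    ∃ p', Pd d p' ∧ ∃ c : ℤ, ∃ f' ∈ A, w * f * p = p' + c * h + w * f' := by
  induction d with
  | zero =>
    intro p hp
    obtain ⟨c, rfl⟩ := hp.zero
    exact ⟨(0 : ℤ), Pd.c _ _, 0, _, c_mem c hf, by push_cast; ring⟩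
  | succ d ih =>
    intro p hp
    obtain ⟨p', h1, c, f', h2, e⟩ := ih (mk fun n => coeff (n + 1) p)
      (fun n hn => by rw [coeff_mk, hp _ (by omega)])
    obtain ⟨c', f'', h3, e'⟩ := Xw h2
    refine ⟨_, h1.X.add (Pd.c _ (-c - c')), c + c', _,
      A.add_mem h3 (c_mem (constantCoeff p) hf), ?_⟩
    have e0 := eq_shift_mul_X_add_const p
    rw [← Int.cast_id (n := constantCoeff p), map_intCast] at e0
    push_cast
    linear_combination w * f * e0 + X * e + e' - c * h_mul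

noncomputable def S (m : ℕ) (f : ℤ⟦X⟧) : ℤ⟦X⟧ := U ((2 * h - 1) ^ 2 ^ (m + 1) * f)

def V (m d : ℕ) (f : ℤ⟦X⟧) : Prop :=
  ∃ p, Pd d p ∧ ∃ c : ℤ, ∃ f' ∈ A, f = p + 2 ^ (m + 2) * (c * h) + 2 ^ (m + 3) * w * f'

theorem r_mem (k : ℕ) : (2 * h - 1) ^ k ∈ A := pow_mem (A.sub_mem z_mem one_mem) k

theorem V.step {m d : ℕ} {f : ℤ⟦X⟧} (hf : V m d f) : V m (d / 2) (S m f) := by
  obtain ⟨p, hp, c, f, hf, rfl⟩ := hf
  obtain ⟨r, hr, e⟩ := rho m
  obtain ⟨p', h1, c', f', h2, e'⟩ := G hr d p hp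
  obtain ⟨f'', h3, e''⟩ := UL (A.add_mem (A.add_mem h2 (two_mem (m + 1) (c_mem c (A_mul hr z_mem))))
    (two_mem 1 (A_mul hf (r_mem (2 ^ (m + 1))))))
  refine ⟨U (p + (2 ^ (m + 2) : ℤ) * p'), fun n hn => (cU _ _).trans (hp.add (h1.mul _) _ (by omega)),
    c + c', f'', h3, ?_⟩
  rw [show ((c + c' : ℤ) : ℤ⟦X⟧) * h = U (((c + c' : ℤ) : ℤ⟦X⟧) * h) by rw [U_c, U_h], ← U_2, ← map_add,
    show 2 ^ (m + 3) * w * f'' = 2 ^ (m + 2) * (2 * w * f'') by ring, ← e'', ← U_2, ← map_add, S]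
  congr 1
  push_cast
  linear_combination (p + 2 ^ (m + 2) * (c * h)) * e + 2 ^ (m + 2) * e'

theorem V.fin {m : ℕ} {f : ℤ⟦X⟧} (hf : V m 0 f) : ∃ f' ∈ A, S m f - f = 2 ^ (m + 3) * w * f' := by
  obtain ⟨p, hp, c, f, hf, rfl⟩ := hf
  obtain ⟨r, hr, e⟩ := rho m
  obtain ⟨c', rfl⟩ := hp.zero
  obtain ⟨f'', h3, e''⟩ := UL (A.add_mem (A.add_mem (c_mem c' hr)
    (two_mem (m + 1) (c_mem c (A_mul hr z_mem)))) (two_mem 1 (A_mul hf (r_mem (2 ^ (m + 1))))))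
  refine ⟨_, A.sub_mem h3 hf, ?_⟩
  have : S m (c' + 2 ^ (m + 2) * (c * h) + 2 ^ (m + 3) * w * f)
      = c' * U 1 + 2 ^ (m + 2) * (c * U h) + 2 ^ (m + 2) * (2 * w * f'') := by
    rw [← e'', ← U_c, ← U_c, ← U_2, ← U_2, ← map_add, ← map_add, S]
    congr 1
    linear_combination (c' + 2 ^ (m + 2) * (c * h)) * e
  rw [this, U_one, U_h]
  ring

noncomputable def Q (m k : ℕ) : ℤ⟦X⟧ := (S m)^[k] ((1 - X) ^ 2 ^ (m + 1))

theorem Q_succ (m k : ℕ) : Q m (k + 1) = S m (Q m k) := Function.iterate_succ_apply' _ _ _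

theorem Q_V (m k : ℕ) : V m (2 ^ (m + 1) / 2 ^ k) (Q m k) := by
  induction k with
  | zero =>
    refine ⟨(1 - X) ^ 2 ^ (m + 1), ?_, 0, 0, A.zero_mem, by simp [Q]⟩
    rw [pow_zero, Nat.div_one]
    induction 2 ^ (m + 1) with
    | zero => simpa using Pd.c 0 1
    | succ j ih =>
      have := (ih.X.mul (-1)).add (fun n hn => ih n (by omega))
      convert this using 1
      push_cast
      ring
  | succ k ih =>
    rw [Q_succ, pow_succ 2 k, ← Nat.div_div_eq_div_mul]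
    exact ih.step

theorem Q_D (m t : ℕ) : ∃ f ∈ A, Q m (m + 2 + t + 1) - Q m (m + 2 + t) = 2 ^ (m + 3 + t) * w * f := by
  induction t with
  | zero =>
    have := Q_V m (m + 2)
    rw [Nat.div_eq_of_lt (Nat.pow_lt_pow_right (by omega) (by omega))] at this
    rw [Q_succ]
    exact this.fin
  | succ t ih =>
    obtain ⟨f, hf, e⟩ := ih
    obtain ⟨f', h1, e'⟩ := UL (A_mul hf (r_mem (2 ^ (m + 1))))
    refine ⟨f', h1, ?_⟩
    rw [← add_assoc, Q_succ, Q_succ _ (m + 2 + t), ← Q_succ _ (m + 2 + t), S]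
    nth_rewrite 2 [Q_succ]
    rw [S, ← map_sub, ← mul_sub, e, show 2 ^ (m + 3 + (t + 1)) * w * f'
      = 2 ^ (m + 3 + t) * (2 * w * f') by ring, ← e', ← U_2]
    congr 1
    ring

noncomputable def B (M N : ℕ) : ℤ⟦X⟧ := ∏ i ∈ range N, g i ^ M

theorem B_Q (m k : ℕ) : ∀ N n, coeff (2 ^ k * n) (B (2 ^ (m + 1)) (N + k))
    = coeff n (B (2 ^ (m + 1)) N * h ^ 2 ^ (m + 1) * Q m k) := by
  induction k with
  | zero =>
    intro N n
    simp [Q, mul_assoc, ← mul_pow, mul_comm h, h_mul]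
  | succ k ih =>
    intro N n
    have e : B (2 ^ (m + 1)) (N + 1) = E (B (2 ^ (m + 1)) N) * h ^ 2 ^ (m + 1) := by
      simp only [B, prod_range_succ', map_prod, map_pow, E_g]
    rw [pow_succ, mul_assoc, show N + (k + 1) = N + 1 + k by ring, ih, ← cU, Q_succ, S, mul_comm _ (U _),
      ← U_E, e, map_mul E, map_pow E, mul_assoc (E _), ← mul_pow, ← sq, h_sq, mul_pow]
    congr 2
    ring

theorem B_b (M n N : ℕ) (hN : n < N) : coeff n (B M N) = b M n := by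
  induction N, hN using Nat.le_induction with
  | base => rfl
  | succ N hN ih =>
    have h1 : g N - 1 ∣ g N ^ M - 1 := by simpa using sub_dvd_pow_sub_pow (g N) 1 M
    have h2 : X ^ 2 ^ N ∣ g N - 1 := ⟨g N, by linear_combination g_mul N⟩
    have h3 := X_pow_dvd_iff.mp ((h2.trans h1).mul_left (B M N)) n
      (hN.trans_lt Nat.lt_two_pow_self |> (Nat.lt_succ_self n).trans)
    rw [mul_sub, map_sub, mul_one, ih] at h3
    rw [B, prod_range_succ, ← B]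
    linear_combination h3

theorem result (m n k : ℕ) (hm : 1 ≤ m) (hk : m + 2 ≤ k) :
    (2 : ℤ) ^ k ∣ b (2 ^ m) (2 ^ (k + 1) * n) - b (2 ^ m) (2 ^ (k - 1) * n) := by
  obtain ⟨m, rfl⟩ : ∃ j, m = j + 1 := ⟨m - 1, by omega⟩
  obtain ⟨t, rfl⟩ : ∃ t, k = m + 2 + t + 1 := ⟨k - (m + 3), by omega⟩
  rw [Nat.add_sub_cancel]
  obtain ⟨f, -, e⟩ := Q_D m t
  obtain ⟨f', -, e'⟩ := Q_D m (t + 1)
  have l : 2 ^ (m + 2 + t) * n ≤ 2 ^ (m + 2 + t + 1 + 1) * n :=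
    Nat.mul_le_mul_right _ (Nat.pow_le_pow_right (by omega) (by omega))
  set N := 2 ^ (m + 2 + t + 1 + 1) * n with hN
  rw [← B_b _ _ (N + (m + 2 + t + 1 + 1)) (by omega), ← B_b _ _ (N + (m + 2 + t)) (by omega)]
  nth_rewrite 1 [hN]
  rw [B_Q, B_Q, ← map_sub, ← mul_sub, show Q m (m + 2 + t + 1 + 1) - Q m (m + 2 + t)
    = ((2 : ℤ) ^ (m + 2 + t + 1)) • (w * f + 2 * w * f') by
      rw [zsmul_eq_mul]; push_cast; linear_combination e + e', mul_smul_comm, map_smul]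
  exact Dvd.intro _ rfl

end Pool.Agent.Results.MP_06821b_nt.Full
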